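import Pool.Agent.Helper78.DT.Goals3

namespace Pool.Agent.Helper48.DT

open Pool.Agent.Helper81.CC Pool.Agent.Helper78.DT
open scoped Classical

/-! ### Evaluation of concatenated lists -/

theorem ev_append {V : Type} (b : V → Bool) (c : Bool) (g g2 : DL V)
    (h : ∀ e ∈ g, Sat e.1 b → e.2 = c) :
    ev (g ++ g2) b = if ∃ e ∈ g, Sat e.1 b then c else ev g2 b := by
  induction g with
  | nil => simp
  | cons e g ih =>
    rw [List.cons_append, ev, ih fun e' he' => h e' (List.mem_cons_of_mem _ he')]
    by_cases h1 : Sat e.1 b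
    · rw [if_pos h1, if_pos ⟨e, List.mem_cons_self, h1⟩]
      exact h e List.mem_cons_self h1
    · rw [if_neg h1]
      congr 1
      apply propext
      constructor
      · rintro ⟨e', he', h2⟩
        exact ⟨e', List.mem_cons_of_mem _ he', h2⟩
      · rintro ⟨e', he', h2⟩
        rcases List.mem_cons.1 he' with rfl | he'
        · exact absurd h2 h1
        · exact ⟨e', he', h2⟩

theorem ev_flatMap {V : Type} (b : V → Bool) (O : ℕ → ℕ) (g : ℕ → DL V)
    (h1 : ∀ i, ∀ e ∈ g i, Sat e.1 b → O i ≠ 0 ∧ e.2 = decide (O i = 2))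
    (h2 : ∀ i, O i ≠ 0 → ∃ e ∈ g i, Sat e.1 b) (L : List ℕ) :
    ev (L.flatMap g) b = match L.find? fun i => decide (O i ≠ 0) with
      | some i => decide (O i = 2)
      | none => false := by
  induction L with
  | nil => simp [ev]
  | cons i L ih =>
    rw [List.flatMap_cons, ev_append b (decide (O i = 2)) (g i) _ fun e he hs => (h1 i e he hs).2,
      ih, List.find?_cons]
    by_cases h : O i = 0
    · rw [if_neg]
      · simp [h]
      · rintro ⟨e, he, hs⟩
        exact (h1 i e he hs).1 h
    · rw [if_pos (h2 i h)]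
      simp [h]

/-! ### The terms -/

section
variable {α : Type} [ToData α] (A : Machine α) (x : α)

/-- The term of a leaf. -/
noncomputable def TT (i : ℕ) (a : List Bool) : Tm (Fin (A.m x)) :=
  Finset.univ.filter fun p : Fin (A.m x) × Bool =>
    ∃ k, ∃ h : k < a.length, A.act (x, i, a.take k) - 3 = p.1 ∧ a[k] = p.2

theorem mem_TT (i : ℕ) (a : List Bool) (p : Fin (A.m x) × Bool) :
    p ∈ TT A x i a ↔ ∃ k, ∃ h : k < a.length, A.act (x, i, a.take k) - 3 = p.1 ∧ a[k] = p.2 := by
  simp [TT]

theorem mem_rd (i : ℕ) (a : List Bool) (v : ℕ) :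
    v ∈ rd A x i a ↔ v < A.m x ∧ ∃ k < a.length, A.act (x, i, a.take k) - 3 = v := by
  simp only [rd, List.mem_dedup, List.mem_filter, List.mem_map, List.mem_range, decide_eq_true_eq]
  constructor
  · rintro ⟨⟨k, hk, h⟩, hv⟩
    exact ⟨hv, k, hk, h⟩
  · rintro ⟨hv, k, hk, h⟩
    exact ⟨⟨k, hk, h⟩, hv⟩

/-- The consistent leaves. -/
noncomputable def CL (i : ℕ) : Finset (List Bool) :=
  Finset.univ.image fun b : Fin (A.m x) → Bool => hist A x i (cf b)

theorem mem_CL (i : ℕ) (a : List Bool) :
    a ∈ CL A x i ↔ ∃ b : Fin (A.m x) → Bool, hist A x i (cf b) = a := by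
  simp [CL]

theorem sat_iff (hH : HisStmt) (i : ℕ) (a : List Bool) (ha : a ∈ CL A x i)
    (b : Fin (A.m x) → Bool) : Sat (TT A x i a) b ↔ hist A x i (cf b) = a := by
  obtain ⟨b0, hb0⟩ := (mem_CL A x i a).1 ha
  have h0 := ((hH α A x i).2 (cf b0) a).2 hb0.symm
  constructor
  · intro hs
    symm
    refine ((hH α A x i).2 (cf b) a).1 ⟨fun k hk => ⟨(h0.1 k hk).1, ?_⟩, h0.2⟩
    by_cases hv : A.act (x, i, a.take k) - 3 < A.m x
    · have := hs (⟨A.act (x, i, a.take k) - 3, hv⟩, a[k])
        ((mem_TT A x i a _).2 ⟨k, hk, rfl, rfl⟩)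
      simp only [cf, dif_pos hv]
      exact this.symm
    · have h1 := (h0.1 k hk).2
      simp only [cf, dif_neg hv] at h1 ⊢
      exact h1
  · intro hb p hp
    obtain ⟨k, hk, hv, hk2⟩ := (mem_TT A x i a p).1 hp
    have h1 := ((hH α A x i).2 (cf b) a).2 hb.symm
    have h2 := (h1.1 k hk).2
    rw [hv, hk2] at h2
    simp only [cf, Fin.is_lt, dif_pos, Fin.eta] at h2
    exact h2.symm

theorem card_filter (hH : HisStmt) (i : ℕ) (a : List Bool) (ha : a ∈ CL A x i) (q : ℕ → Prop)
    [DecidablePred q] :
    ((TT A x i a).filter fun p => q p.1).card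
      = ((rd A x i a).filter fun v => decide (q v)).length := by
  obtain ⟨b0, hb0⟩ := (mem_CL A x i a).1 ha
  have hs : Sat (TT A x i a) b0 := (sat_iff A x hH i a ha b0).2 hb0
  have hnd : ((rd A x i a).filter fun v => decide (q v)).Nodup :=
    (List.nodup_dedup _).filter _
  rw [← List.toFinset_card_of_nodup hnd]
  refine Finset.card_bij (fun p _ => (p.1 : ℕ)) ?_ ?_ ?_
  · intro p hp
    obtain ⟨h1, h2⟩ := Finset.mem_filter.1 hp
    obtain ⟨k, hk, hv, _⟩ := (mem_TT A x i a p).1 h1
    rw [List.mem_toFinset, List.mem_filter, mem_rd]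
    exact ⟨⟨p.1.2, k, hk, hv⟩, by simpa using h2⟩
  · intro p hp p' hp' h
    have h1 := hs p (Finset.mem_filter.1 hp).1
    have h2 := hs p' (Finset.mem_filter.1 hp').1
    have h3 : p.1 = p'.1 := Fin.ext h
    exact Prod.ext h3 (by rw [← h1, ← h2, h3])
  · intro v hv
    rw [List.mem_toFinset, List.mem_filter, mem_rd] at hv
    obtain ⟨⟨hv, k, hk, hkv⟩, hq⟩ := hv
    refine ⟨(⟨v, hv⟩, a[k]), ?_, rfl⟩
    rw [Finset.mem_filter, mem_TT]
    exact ⟨⟨k, hk, hkv, rfl⟩, by simpa using hq⟩

theorem card_TT (hH : HisStmt) (i : ℕ) (a : List Bool) (ha : a ∈ CL A x i) :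
    (TT A x i a).card = (rd A x i a).length := by
  have h := card_filter A x hH i a ha (fun _ => True)
  simpa using h

/-- The number of the consistent leaves. -/
theorem card_CL (hH : HisStmt) (i : ℕ) : (CL A x i).card ≤ A.w x := by
  have h1 : ((CL A x i : Finset (List Bool)) : Set (List Bool)) ⊆
      {a : List Bool | ∀ k < a.length, 3 ≤ A.act (x, i, a.take k)} := by
    intro a ha
    obtain ⟨b, hb⟩ := (mem_CL A x i a).1 ha
    exact fun k hk => ((((hH α A x i).2 (cf b) a).2 hb.symm).1 k hk).1
  have h2 := (Set.encard_le_encard h1).trans (A.tree x i)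
  rw [Set.encard_coe_eq_coe_finsetCard] at h2
  exact_mod_cast h2

/-- The probability of a leaf. -/
theorem pr_leaf (hH : HisStmt) (i : ℕ) (a : List Bool) (ha : a ∈ CL A x i) :
    pr (fun b : Fin (A.m x) → Bool => hist A x i (cf b) = a)
      = 1 / 2 ^ (rd A x i a).length := by
  obtain ⟨b0, hb0⟩ := (mem_CL A x i a).1 ha
  set S : Finset (Fin (A.m x)) := Finset.univ.filter fun v => (v : ℕ) ∈ rd A x i a with hS
  have hScard : S.card = (rd A x i a).length := by
    have hnd : (rd A x i a).Nodup := List.nodup_dedup _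
    rw [← List.toFinset_card_of_nodup hnd]
    refine Finset.card_bij (fun v _ => (v : ℕ)) ?_ ?_ ?_
    · intro v hv
      rw [List.mem_toFinset]
      exact (Finset.mem_filter.1 hv).2
    · intro v _ v' _ h
      exact Fin.ext h
    · intro v hv
      rw [List.mem_toFinset] at hv
      have hv' := ((mem_rd A x i a v).1 hv).1
      exact ⟨⟨v, hv'⟩, Finset.mem_filter.2 ⟨Finset.mem_univ _, hv⟩, rfl⟩
  have hiff : ∀ b : Fin (A.m x) → Bool, hist A x i (cf b) = a ↔ ∀ v ∈ S, b v = b0 v := by
    intro b
    rw [← sat_iff A x hH i a ha b]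
    have hs0 : Sat (TT A x i a) b0 := (sat_iff A x hH i a ha b0).2 hb0
    constructor
    · intro hs v hv
      obtain ⟨_, k, hk, hkv⟩ := (mem_rd A x i a v).1 (Finset.mem_filter.1 hv).2
      have hm : (v, a[k]) ∈ TT A x i a := (mem_TT A x i a _).2 ⟨k, hk, hkv, rfl⟩
      rw [hs _ hm, hs0 _ hm]
    · intro h p hp
      obtain ⟨k, hk, hv, _⟩ := (mem_TT A x i a p).1 hp
      have : p.1 ∈ S := Finset.mem_filter.2 ⟨Finset.mem_univ _,
        (mem_rd A x i a _).2 ⟨p.1.2, k, hk, hv⟩⟩
      rw [h _ this]
      exact hs0 p hp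
  rw [pr_congr hiff, pr_eq_card, Nat.card_eq_fintype_card, Fintype.card_subtype]
  have hpi : (Finset.univ.filter fun b : Fin (A.m x) → Bool => ∀ v ∈ S, b v = b0 v)
      = Fintype.piFinset fun v => if v ∈ S then {b0 v} else Finset.univ := by
    ext b
    simp only [Finset.mem_filter, Finset.mem_univ, true_and, Fintype.mem_piFinset]
    constructor
    · intro h v
      by_cases hv : v ∈ S
      · rw [if_pos hv, Finset.mem_singleton]
        exact h v hv
      · rw [if_neg hv]
        exact Finset.mem_univ _
    · intro h v hv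
      have := h v
      rwa [if_pos hv, Finset.mem_singleton] at this
  rw [hpi, Fintype.card_piFinset]
  have hprod : ∏ v, (if v ∈ S then ({b0 v} : Finset Bool) else Finset.univ).card
      = 2 ^ (A.m x - S.card) := by
    have h1 : ∀ v, (if v ∈ S then ({b0 v} : Finset Bool) else Finset.univ).card
        = if v ∈ S then 1 else 2 := by
      intro v
      split_ifs <;> simp
    rw [Finset.prod_congr rfl fun v _ => h1 v, Finset.prod_ite, Finset.prod_const_one, one_mul,
      Finset.prod_const]
    congr 1
    have h2 : (Finset.univ.filter fun v => ¬ v ∈ S) = Sᶜ := by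
      ext v
      simp
    rw [h2, Finset.card_compl, Fintype.card_fin]
  rw [hprod, Fintype.card_fun, Fintype.card_bool, Fintype.card_fin, ← hScard]
  have hle : S.card ≤ A.m x := by
    have := Finset.card_le_univ S
    simpa using this
  push_cast
  rw [div_eq_div_iff (by positivity) (by positivity), one_mul, ← pow_add]
  congr 1
  omega

/-- The entries of the stage `i`. -/
noncomputable def EE (W i : ℕ) : DL (Fin (A.m x)) :=
  ((CL A x i).toList.filter fun a =>
    decide ((rd A x i a).length ≤ W ∧ A.act (x, i, a) ≠ 0)).map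
      fun a => (TT A x i a, decide (A.act (x, i, a) = 2))

theorem mem_EE (W i : ℕ) (e : Tm (Fin (A.m x)) × Bool) :
    e ∈ EE A x W i ↔ ∃ a ∈ CL A x i, (rd A x i a).length ≤ W ∧ A.act (x, i, a) ≠ 0 ∧
      e = (TT A x i a, decide (A.act (x, i, a) = 2)) := by
  simp only [EE, List.mem_map, List.mem_filter, Finset.mem_toList, decide_eq_true_eq]
  constructor
  · rintro ⟨a, ⟨h1, h2, h3⟩, rfl⟩
    exact ⟨a, h1, h2, h3, rfl⟩
  · rintro ⟨a, h1, h2, h3, rfl⟩
    exact ⟨a, ⟨h1, h2, h3⟩, rfl⟩

theorem okh_iff (W K t : ℕ) (h : ℕ → ℕ) (i : ℕ) (a : List Bool) :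
    okh A x W K t h i a = true ↔ (rd A x i a).length ≤ W ∧
      ∀ j < K, ((rd A x i a).filter fun v => decide (h v = j)).length ≤ t := by
  simp [okh]

end

theorem dlm (hH : HisStmt) (hR : ResStmt) : DlmStmt := by
  intro α _ A x W
  have hmain : ∀ (b : Fin (A.m x) → Bool) (h : ℕ → ℕ) (K t : ℕ),
      ev (((List.range (A.T x)).flatMap (EE A x W)).filter (bal K t h)) b
        = res A x W K t h (cf b) := by
    intro b h K t
    rw [List.filter_flatMap]
    unfold res
    have hcl : ∀ i, hist A x i (cf b) ∈ CL A x i := fun i => (mem_CL A x i _).2 ⟨b, rfl⟩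
    refine ev_flatMap b (out A x W K t h (cf b)) _ ?_ ?_ _
    · intro i e he hs
      obtain ⟨h1, h2⟩ := List.mem_filter.1 he
      obtain ⟨a, ha, hW, h0, rfl⟩ := (mem_EE A x W i e).1 h1
      have hb : hist A x i (cf b) = a := (sat_iff A x hH i a ha b).1 hs
      have hbal : ∀ j < K, ((rd A x i a).filter fun v => decide (h v = j)).length ≤ t := by
        intro j hj
        have h3 := of_decide_eq_true h2
        have h4 := h3 j hj
        have h5 := card_filter A x hH i a ha (fun v => h v = j)
        simp only at h4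
        omega
      have hok : okh A x W K t h i (hist A x i (cf b)) = true := by
        rw [hb, okh_iff]
        exact ⟨hW, hbal⟩
      have hout : out A x W K t h (cf b) i = A.act (x, i, a) := by
        unfold out
        rw [if_pos hok, hb]
      rw [hout]
      exact ⟨h0, rfl⟩
    · intro i hi
      have hok : okh A x W K t h i (hist A x i (cf b)) = true := by
        by_contra hc
        unfold out at hi
        rw [if_neg hc] at hi
        exact hi rfl
      have h0 : A.act (x, i, hist A x i (cf b)) ≠ 0 := by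
        unfold out at hi
        rwa [if_pos hok] at hi
      obtain ⟨hW, hbal⟩ := (okh_iff A x W K t h i _).1 hok
      refine ⟨(TT A x i (hist A x i (cf b)), decide (A.act (x, i, hist A x i (cf b)) = 2)), ?_,
        (sat_iff A x hH i _ (hcl i) b).2 rfl⟩
      rw [List.mem_filter]
      refine ⟨(mem_EE A x W i _).2 ⟨_, hcl i, hW, h0, rfl⟩, ?_⟩
      unfold bal
      rw [decide_eq_true_eq]
      intro j hj
      have h5 := card_filter A x hH i _ (hcl i) (fun v => h v = j)
      have h6 := hbal j hj
      simp only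
      omega
  refine ⟨(List.range (A.T x)).flatMap (EE A x W), ?_, hmain, ?_⟩
  · intro e he
    obtain ⟨i, _, he⟩ := List.mem_flatMap.1 he
    obtain ⟨a, ha, hW, _, rfl⟩ := (mem_EE A x W i e).1 he
    simp only
    rw [card_TT A x hH i a ha]
    exact hW
  · have hf : ∀ b : Fin (A.m x) → Bool,
        ev ((List.range (A.T x)).flatMap (EE A x W)) b = res A x W 0 0 (fun _ => 0) (cf b) := by
      intro b
      rw [← hmain b (fun _ => 0) 0 0]
      congr 1
      symm
      rw [List.filter_eq_self]
      intro e _
      simp [bal]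
    have hacc : (A.acc x : ℝ) / 2 ^ A.m x
        = pr fun b : Fin (A.m x) → Bool => res A x (W + A.w x) 0 0 (fun _ => 0) (cf b) = true := by
      rw [pr_congr fun b => hR α A x (W + A.w x) 0 (fun _ => 0) b (Nat.le_add_left _ _),
        pr_eq_card, Fintype.card_fun, Fintype.card_bool, Fintype.card_fin]
      unfold Machine.acc
      push_cast
      rfl
    set B : (Fin (A.m x) → Bool) → Prop := fun b =>
      ∃ i ∈ Finset.range (A.T x), W < (rd A x i (hist A x i (cf b))).length with hB
    have hgood : ∀ b, ¬ B b → res A x W 0 0 (fun _ => 0) (cf b)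
        = res A x (W + A.w x) 0 0 (fun _ => 0) (cf b) := by
      intro b hb
      have hle : ∀ i < A.T x, (rd A x i (hist A x i (cf b))).length ≤ W := by
        intro i hi
        by_contra hc
        exact hb ⟨i, Finset.mem_range.2 hi, not_le.1 hc⟩
      have hout : ∀ i < A.T x, out A x W 0 0 (fun _ => 0) (cf b) i
          = out A x (W + A.w x) 0 0 (fun _ => 0) (cf b) i := by
        intro i hi
        have h1 : okh A x W 0 0 (fun _ => 0) i (hist A x i (cf b)) = true :=
          (okh_iff A x W 0 0 _ i _).2 ⟨hle i hi, fun j hj => absurd hj (Nat.not_lt_zero _)⟩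
        have h2 : okh A x (W + A.w x) 0 0 (fun _ => 0) i (hist A x i (cf b)) = true :=
          (okh_iff A x (W + A.w x) 0 0 _ i _).2
            ⟨(hle i hi).trans (Nat.le_add_right _ _), fun j hj => absurd hj (Nat.not_lt_zero _)⟩
        unfold out
        rw [if_pos h1, if_pos h2]
      unfold res
      have hfind : ∀ L : List ℕ, (∀ i ∈ L, i < A.T x) →
          (L.find? fun i => decide (out A x W 0 0 (fun _ => 0) (cf b) i ≠ 0))
            = L.find? fun i => decide (out A x (W + A.w x) 0 0 (fun _ => 0) (cf b) i ≠ 0) := by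
        intro L
        induction L with
        | nil => intro _; rfl
        | cons i L ih =>
          intro hL
          rw [List.find?_cons, List.find?_cons, hout i (hL i List.mem_cons_self),
            ih fun j hj => hL j (List.mem_cons_of_mem _ hj)]
      rw [hfind _ fun i hi => List.mem_range.1 hi]
      rcases hfd : (List.range (A.T x)).find? fun i =>
        decide (out A x (W + A.w x) 0 0 (fun _ => 0) (cf b) i ≠ 0) with _ | i
      · rfl
      · have hi := List.mem_range.1 (List.mem_of_find?_eq_some hfd)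
        simp only
        rw [hout i hi]
    have hpB : pr B ≤ (A.T x : ℝ) * (A.w x : ℝ) / 2 ^ W := by
      refine (pr_exists_le (Finset.range (A.T x)) fun i b =>
        W < (rd A x i (hist A x i (cf b))).length).trans ?_
      have hone : ∀ i ∈ Finset.range (A.T x),
          pr (fun b : Fin (A.m x) → Bool => W < (rd A x i (hist A x i (cf b))).length)
            ≤ (A.w x : ℝ) / 2 ^ W := by
        intro i _
        have h1 : pr (fun b : Fin (A.m x) → Bool => W < (rd A x i (hist A x i (cf b))).length)
            ≤ pr fun b : Fin (A.m x) → Bool =>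
              ∃ a ∈ (CL A x i).filter fun a => W < (rd A x i a).length,
                hist A x i (cf b) = a := by
          refine pr_mono fun b hb => ?_
          exact ⟨_, Finset.mem_filter.2 ⟨(mem_CL A x i _).2 ⟨b, rfl⟩, hb⟩, rfl⟩
        refine h1.trans ((pr_exists_le _ fun a b => hist A x i (cf b) = a).trans ?_)
        have h2 : ∀ a ∈ (CL A x i).filter fun a => W < (rd A x i a).length,
            pr (fun b : Fin (A.m x) → Bool => hist A x i (cf b) = a) ≤ 1 / 2 ^ W := by
          intro a ha
          obtain ⟨ha, hW⟩ := Finset.mem_filter.1 ha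
          rw [pr_leaf A x hH i a ha]
          exact one_div_le_one_div_of_le (by positivity)
            (pow_le_pow_right₀ one_le_two hW.le)
        refine (Finset.sum_le_sum h2).trans ?_
        rw [Finset.sum_const, nsmul_eq_mul, mul_one_div]
        refine div_le_div_of_nonneg_right ?_ (by positivity)
        exact_mod_cast (Finset.card_filter_le _ _).trans (card_CL A x hH i)
      refine (Finset.sum_le_sum hone).trans ?_
      rw [Finset.sum_const, nsmul_eq_mul, Finset.card_range, mul_div_assoc]
    rw [hacc, pr_congr fun b => by rw [hf b]]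
    rw [abs_sub_le_iff]
    constructor
    · have := pr_le_add_of_imp (E := fun b : Fin (A.m x) → Bool =>
          res A x W 0 0 (fun _ => 0) (cf b) = true)
        (E' := fun b => res A x (W + A.w x) 0 0 (fun _ => 0) (cf b) = true) (B := B) (by
          intro b hb
          by_cases h : B b
          · exact Or.inr h
          · left
            rw [← hgood b h]
            exact hb)
      linarith
    · have := pr_le_add_of_imp (E := fun b : Fin (A.m x) → Bool =>
          res A x (W + A.w x) 0 0 (fun _ => 0) (cf b) = true)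
        (E' := fun b => res A x W 0 0 (fun _ => 0) (cf b) = true) (B := B) (by
          intro b hb
          by_cases h : B b
          · exact Or.inr h
          · left
            rw [hgood b h]
            exact hb)
      linarith

end Pool.Agent.Helper48.DT
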